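import Pool.Agent.Helper98.DISC.GoalsB

set_option autoImplicit false

open MeasureTheory Set Filter Topology
open Pool.Agent.Helper98.DISC

noncomputable section

namespace Pool.Agent.Helper79.DISC

theorem swap_cont {F : ℝ → ℝ → ℂ} (hF : Continuous (Function.uncurry F)) (a b c d : ℝ) :
    ∫ x in a..b, ∫ y in c..d, F x y = ∫ y in c..d, ∫ x in a..b, F x y := by
  apply MeasureTheory.intervalIntegral_intervalIntegral_swap
  have h1 : IntegrableOn (Function.uncurry F) (uIcc a b ×ˢ uIcc c d) :=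
    hF.continuousOn.integrableOn_compact (isCompact_uIcc.prod isCompact_uIcc)
  exact h1.mono_set (prod_mono uIoc_subset_uIcc uIoc_subset_uIcc)

theorem hol_cont {r ρ : ℝ} {f : ℂ → ℂ} (hf : Hol r f) (hr : r < ρ) :
    ContinuousOn f (Metric.sphere 0 ρ) := by
  intro z hz
  rw [mem_sphere_zero_iff_norm] at hz
  exact (hf.2.1 z (by rw [hz]; exact hr)).continuousAt.continuousWithinAt

theorem hol_comp {r ρ : ℝ} {f : ℂ → ℂ} (hf : Hol r f) (hr : r < ρ) :
    Continuous (fun θ => f (circleMap 0 ρ θ)) := by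
  have hρ : 0 ≤ ρ := hf.1.trans hr.le
  exact (hol_cont hf hr).comp_continuous (continuous_circleMap _ _)
    (fun θ => circleMap_mem_sphere _ hρ θ)

theorem hol_div {r ρ : ℝ} {g : ℂ → ℂ} (hg : Hol r g) {ξ : ℂ} (hr : r ≤ ρ) (hξ : ‖ξ‖ ≤ ρ) :
    Hol ρ (fun z => g z / (z - ξ)) := by
  refine ⟨hg.1.trans hr, ?_, ?_⟩
  · intro z hz
    have h1 : z - ξ ≠ 0 := by
      intro h
      rw [sub_eq_zero] at h
      rw [h] at hz
      linarith
    exact (hg.2.1 z (by linarith)).div (differentiableAt_id.sub_const ξ) h1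
  · obtain ⟨C, r', hC⟩ := hg.2.2
    refine ⟨C, max r' (‖ξ‖ + 1), ?_⟩
    intro z hz
    have h1 : r' < ‖z‖ := (le_max_left _ _).trans_lt hz
    have h2 : ‖ξ‖ + 1 < ‖z‖ := (le_max_right _ _).trans_lt hz
    have h3 := hC z h1
    have h4 : 1 ≤ ‖z - ξ‖ := by
      have := norm_sub_norm_le z ξ
      linarith
    rw [norm_div, div_mul_eq_mul_div]
    rw [div_le_iff₀ (by linarith)]
    have h5 : 0 ≤ ‖g z‖ * ‖z‖ := by positivity
    nlinarith

theorem hol_mul {r : ℝ} {f g : ℂ → ℂ} (hf : Hol r f) (hg : Hol r g) :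
    Hol r (fun z => f z * g z) := by
  refine ⟨hf.1, ?_, ?_⟩
  · intro z hz
    exact (hf.2.1 z hz).mul (hg.2.1 z hz)
  · obtain ⟨C, r', hC⟩ := hf.2.2
    obtain ⟨D, r'', hD⟩ := hg.2.2
    refine ⟨C * D, max (max r' r'') 1, ?_⟩
    intro z hz
    have h1 : r' < ‖z‖ := ((le_max_left _ _).trans (le_max_left _ _)).trans_lt hz
    have h2 : r'' < ‖z‖ := ((le_max_right _ _).trans (le_max_left _ _)).trans_lt hz
    have h3 : 1 < ‖z‖ := (le_max_right _ _).trans_lt hz
    have h4 := hC z h1
    have h5 := hD z h2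
    rw [norm_mul]
    have h6 : ‖f z‖ * ‖g z‖ * ‖z‖ ≤ (‖f z‖ * ‖z‖) * (‖g z‖ * ‖z‖) := by
      have h7 : 0 ≤ ‖f z‖ * ‖g z‖ * ‖z‖ := by positivity
      calc ‖f z‖ * ‖g z‖ * ‖z‖ = ‖f z‖ * ‖g z‖ * ‖z‖ * 1 := by ring
        _ ≤ ‖f z‖ * ‖g z‖ * ‖z‖ * ‖z‖ := by
          apply mul_le_mul_of_nonneg_left h3.le h7
        _ = (‖f z‖ * ‖z‖) * (‖g z‖ * ‖z‖) := by ring
    refine h6.trans ?_
    apply mul_le_mul h4 h5 (by positivity)
    have : 0 ≤ ‖f z‖ * ‖z‖ := by positivity
    linarith

theorem Cc_cont (hR : S_RAD) {r ρ : ℝ} {f : ℂ → ℂ} (hf : Hol r f) (hr : r < ρ) :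
    Continuous (fun φ => Cc ρ f φ) := by
  rw [continuous_iff_continuousAt]
  intro φ
  exact (hR r ρ ρ φ f hf hr hr).2.continuousAt

theorem conv_aux (hR : S_RAD) (hE : S_EXT) {r ρ : ℝ} {g : ℂ → ℂ} (hg : Hol r g) (hr : r < ρ)
    {ξ : ℂ} (hξ : ‖ξ‖ < ρ) (φ : ℝ) :
    ∫ τ in (0 : ℝ)..φ, Complex.exp (2 * Complex.I * ξ * ((φ - τ : ℝ) : ℂ)) * Cc ρ g τ =
      Cc ρ (fun z => g z / (z - ξ)) φ / (2 * Complex.I) := by
  have hm : max r ‖ξ‖ < ρ := max_lt hr hξ
  have hh : Hol (max r ‖ξ‖) (fun z => g z / (z - ξ)) :=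
    hol_div hg (le_max_left _ _) (le_max_right _ _)
  have hρ : 0 ≤ ρ := hg.1.trans hr.le
  have hlin : ∀ τ : ℝ, Cc ρ (fun z => 2 * Complex.I * z * (g z / (z - ξ))) τ =
      2 * Complex.I * Cc ρ g τ + 2 * Complex.I * ξ * Cc ρ (fun z => g z / (z - ξ)) τ := by
    intro τ
    unfold Cc
    have hexp : Continuous (fun z : ℂ => Complex.exp (2 * Complex.I * z * τ)) := by fun_prop
    have e1 : (∮ z in C(0, ρ), 2 * Complex.I * z * (g z / (z - ξ)) *
        Complex.exp (2 * Complex.I * z * τ)) =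
        ∮ z in C(0, ρ), (2 * Complex.I * (g z * Complex.exp (2 * Complex.I * z * τ)) +
          2 * Complex.I * ξ * (g z / (z - ξ) * Complex.exp (2 * Complex.I * z * τ))) := by
      apply circleIntegral.integral_congr hρ
      intro z hz
      rw [mem_sphere_zero_iff_norm] at hz
      have h1 : z - ξ ≠ 0 := by
        intro h
        rw [sub_eq_zero] at h
        rw [h] at hz
        linarith
      simp only
      field_simp
      ring
    have c1 : CircleIntegrable (fun z => 2 * Complex.I *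
        (g z * Complex.exp (2 * Complex.I * z * τ))) 0 ρ := by
      apply ContinuousOn.circleIntegrable hρ
      exact continuousOn_const.mul ((hol_cont hg hr).mul hexp.continuousOn)
    have c2 : CircleIntegrable (fun z => 2 * Complex.I * ξ *
        (g z / (z - ξ) * Complex.exp (2 * Complex.I * z * τ))) 0 ρ := by
      apply ContinuousOn.circleIntegrable hρ
      exact continuousOn_const.mul ((hol_cont hh hm).mul hexp.continuousOn)
    rw [e1, circleIntegral.integral_add c1 c2, circleIntegral.integral_const_mul,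
      circleIntegral.integral_const_mul]
    ring
  have hI : (2 * Complex.I : ℂ) ≠ 0 := by simp
  have hd : ∀ τ : ℝ, HasDerivAt (fun τ : ℝ => Complex.exp (2 * Complex.I * ξ * ((φ - τ : ℝ) : ℂ)) *
      Cc ρ (fun z => g z / (z - ξ)) τ / (2 * Complex.I))
      (Complex.exp (2 * Complex.I * ξ * ((φ - τ : ℝ) : ℂ)) * Cc ρ g τ) τ := by
    intro τ
    have h1 := (hR (max r ‖ξ‖) ρ ρ τ _ hh hm hm).2
    rw [hlin τ] at h1
    have h2 : HasDerivAt (fun τ : ℝ => ((φ - τ : ℝ) : ℂ)) (-1) τ := by
      have h3 : HasDerivAt (fun τ : ℝ => φ - τ) (-1) τ := (hasDerivAt_id τ).const_sub φ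
      have h4 := h3.ofReal_comp
      simpa using h4
    have h3 : HasDerivAt (fun τ : ℝ => Complex.exp (2 * Complex.I * ξ * ((φ - τ : ℝ) : ℂ)))
        (Complex.exp (2 * Complex.I * ξ * ((φ - τ : ℝ) : ℂ)) * (2 * Complex.I * ξ * (-1))) τ :=
      (h2.const_mul (2 * Complex.I * ξ)).cexp
    have h4 := (h3.mul h1).div_const (2 * Complex.I)
    refine h4.congr_deriv ?_
    field_simp
    ring
  have hcont : Continuous (fun τ : ℝ => Complex.exp (2 * Complex.I * ξ * ((φ - τ : ℝ) : ℂ)) *
      Cc ρ g τ) := by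
    apply Continuous.mul
    · fun_prop
    · exact Cc_cont hR hg hr
  rw [intervalIntegral.integral_eq_sub_of_hasDerivAt (fun τ _ => hd τ)
    (hcont.intervalIntegrable _ _)]
  have h0 : Cc ρ (fun z => g z / (z - ξ)) 0 = 0 := by
    unfold Cc
    simp only [Complex.ofReal_zero, mul_zero, Complex.exp_zero, mul_one]
    rw [(hE r ρ g hg hr).2 ξ hξ, mul_zero]
  rw [h0]
  simp

theorem cnv (hR : S_RAD) (hE : S_EXT) : S_CNV := by
  intro r ρ φ f g hf hg hr
  have hr0 : 0 ≤ r := hf.1
  have hρ0 : 0 < ρ := lt_of_le_of_lt hr0 hr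
  have hρ1 : r < ρ + 1 := by linarith
  have hρ2 : ρ < ρ + 1 := by linarith
  have hpi : (2 * (Real.pi : ℂ) * Complex.I) ≠ 0 := by
    have : (Real.pi : ℂ) ≠ 0 := by exact_mod_cast Real.pi_ne_zero
    simp [this]
  have hI : (2 * Complex.I : ℂ) ≠ 0 := by simp
  rw [(hR r ρ (ρ + 1) φ _ (hol_mul hf hg) hr hρ1).1]
  have hg' : ∀ τ, Cc ρ g τ = Cc (ρ + 1) g τ := fun τ => (hR r ρ (ρ + 1) τ g hg hr hρ1).1
  have hcf := hol_comp hf hr
  have hcg := hol_comp hg hρ1
  have hc1 : Continuous (circleMap 0 ρ) := continuous_circleMap _ _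
  have hc2 : Continuous (circleMap 0 (ρ + 1)) := continuous_circleMap _ _
  have hG : Continuous (fun τ => Cc (ρ + 1) g τ) := Cc_cont hR hg hρ1
  have hne : ∀ θ θ' : ℝ, circleMap 0 (ρ + 1) θ' - circleMap 0 ρ θ ≠ 0 := by
    intro θ θ' h
    rw [sub_eq_zero] at h
    have h1 := congrArg norm h
    rw [norm_circleMap_zero, norm_circleMap_zero, abs_of_pos hρ0, abs_of_pos (by linarith)] at h1
    linarith
  -- first step
  have s1 : (∫ τ in (0 : ℝ)..φ, Cc ρ f (φ - τ) * Cc ρ g τ) =
      (2 * Real.pi * Complex.I)⁻¹ * ∫ θ in (0 : ℝ)..(2 * Real.pi),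
        (circleMap 0 ρ θ * Complex.I) * f (circleMap 0 ρ θ) *
          (Cc (ρ + 1) (fun z => g z / (z - circleMap 0 ρ θ)) φ / (2 * Complex.I)) := by
    have e1 : ∀ τ : ℝ, Cc ρ f (φ - τ) * Cc ρ g τ = (2 * Real.pi * Complex.I)⁻¹ *
        ∫ θ in (0 : ℝ)..(2 * Real.pi), ((circleMap 0 ρ θ * Complex.I) * f (circleMap 0 ρ θ)) *
          (Complex.exp (2 * Complex.I * circleMap 0 ρ θ * ((φ - τ : ℝ) : ℂ)) *
            Cc (ρ + 1) g τ) := by
      intro τ
      rw [hg' τ]
      unfold Cc circleIntegral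
      rw [mul_assoc, ← intervalIntegral.integral_mul_const]
      congr 1
      apply intervalIntegral.integral_congr
      intro θ _
      simp only [deriv_circleMap, smul_eq_mul]
      ring
    rw [intervalIntegral.integral_congr (fun τ _ => e1 τ), intervalIntegral.integral_const_mul]
    congr 1
    rw [swap_cont]
    · apply intervalIntegral.integral_congr
      intro θ _
      simp only
      rw [intervalIntegral.integral_const_mul, conv_aux hR hE hg hρ1]
      rw [norm_circleMap_zero, abs_of_pos hρ0]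
      exact hρ2
    · simp only [Function.uncurry_def]
      apply Continuous.mul
      · exact ((hc1.comp continuous_snd).mul continuous_const).mul (hcf.comp continuous_snd)
      · apply Continuous.mul
        · apply Complex.continuous_exp.comp
          apply Continuous.mul
          · exact continuous_const.mul (hc1.comp continuous_snd)
          · exact Complex.continuous_ofReal.comp (continuous_const.sub continuous_fst)
        · exact hG.comp continuous_fst
  have s2 : (∫ θ in (0 : ℝ)..(2 * Real.pi),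
        (circleMap 0 ρ θ * Complex.I) * f (circleMap 0 ρ θ) *
          (Cc (ρ + 1) (fun z => g z / (z - circleMap 0 ρ θ)) φ / (2 * Complex.I))) =
      (2 * Real.pi * Complex.I)⁻¹ / (2 * Complex.I) * ∫ θ' in (0 : ℝ)..(2 * Real.pi),
        (circleMap 0 (ρ + 1) θ' * Complex.I) * g (circleMap 0 (ρ + 1) θ') *
          Complex.exp (2 * Complex.I * circleMap 0 (ρ + 1) θ' * φ) *
          (2 * Real.pi * Complex.I * f (circleMap 0 (ρ + 1) θ')) := by
    have e1 : ∀ θ : ℝ, (circleMap 0 ρ θ * Complex.I) * f (circleMap 0 ρ θ) *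
          (Cc (ρ + 1) (fun z => g z / (z - circleMap 0 ρ θ)) φ / (2 * Complex.I)) =
        (2 * Real.pi * Complex.I)⁻¹ / (2 * Complex.I) * ∫ θ' in (0 : ℝ)..(2 * Real.pi),
          ((circleMap 0 (ρ + 1) θ' * Complex.I) * g (circleMap 0 (ρ + 1) θ') *
          Complex.exp (2 * Complex.I * circleMap 0 (ρ + 1) θ' * φ)) *
          ((circleMap 0 ρ θ * Complex.I) * (f (circleMap 0 ρ θ) /
            (circleMap 0 (ρ + 1) θ' - circleMap 0 ρ θ))) := by
      intro θ
      unfold Cc circleIntegral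
      have hAJ : ∀ A B J D : ℂ, A * (B * J / D) = B / D * (A * J) := by
        intro A B J D
        ring
      rw [hAJ, ← intervalIntegral.integral_const_mul]
      congr 1
      apply intervalIntegral.integral_congr
      intro θ' _
      simp only [deriv_circleMap, smul_eq_mul]
      ring
    rw [intervalIntegral.integral_congr (fun θ _ => e1 θ), intervalIntegral.integral_const_mul]
    congr 1
    rw [swap_cont]
    · apply intervalIntegral.integral_congr
      intro θ' _
      simp only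
      rw [intervalIntegral.integral_const_mul]
      congr 1
      have h1 := (hE r ρ f hf hr).1 (circleMap 0 (ρ + 1) θ') (by
        rw [norm_circleMap_zero, abs_of_pos (by linarith)]
        exact hρ2)
      have h2 : (∫ θ in (0 : ℝ)..(2 * Real.pi), (circleMap 0 ρ θ * Complex.I) *
          (f (circleMap 0 ρ θ) / (circleMap 0 (ρ + 1) θ' - circleMap 0 ρ θ))) =
          -(∮ z in C(0, ρ), f z / (z - circleMap 0 (ρ + 1) θ')) := by
        unfold circleIntegral
        rw [← intervalIntegral.integral_neg]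
        apply intervalIntegral.integral_congr
        intro θ _
        simp only [deriv_circleMap, smul_eq_mul]
        rw [← neg_sub (circleMap 0 (ρ + 1) θ') (circleMap 0 ρ θ), div_neg]
        ring
      rw [h2, h1]
      ring
    · simp only [Function.uncurry_def]
      apply Continuous.mul
      · apply Continuous.mul
        · exact ((hc2.comp continuous_snd).mul continuous_const).mul (hcg.comp continuous_snd)
        · apply Complex.continuous_exp.comp
          exact (continuous_const.mul (hc2.comp continuous_snd)).mul continuous_const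
      · apply Continuous.mul
        · exact (hc1.comp continuous_fst).mul continuous_const
        · apply Continuous.div (hcf.comp continuous_fst)
            ((hc2.comp continuous_snd).sub (hc1.comp continuous_fst))
          intro p
          exact hne p.1 p.2
  rw [s1, s2]
  have s3 : (∫ θ' in (0 : ℝ)..(2 * Real.pi),
        (circleMap 0 (ρ + 1) θ' * Complex.I) * g (circleMap 0 (ρ + 1) θ') *
          Complex.exp (2 * Complex.I * circleMap 0 (ρ + 1) θ' * φ) *
          (2 * Real.pi * Complex.I * f (circleMap 0 (ρ + 1) θ'))) =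
      (2 * Real.pi * Complex.I) * ∮ z in C(0, ρ + 1), f z * g z *
        Complex.exp (2 * Complex.I * z * φ) := by
    unfold circleIntegral
    rw [← intervalIntegral.integral_const_mul]
    apply intervalIntegral.integral_congr
    intro θ' _
    simp only [deriv_circleMap, smul_eq_mul]
    ring
  rw [s3]
  have s4 : Cc (ρ + 1) (fun z => f z * g z) φ = (2 * Real.pi * Complex.I)⁻¹ *
      ∮ z in C(0, ρ + 1), f z * g z * Complex.exp (2 * Complex.I * z * φ) := rfl
  rw [s4]
  generalize (∮ z in C(0, ρ + 1), f z * g z * Complex.exp (2 * Complex.I * z * φ)) = J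
  field_simp

end Pool.Agent.Helper79.DISC
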