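import Pool.Agent.Helper98.DISC.GoalsE

set_option autoImplicit false

open MeasureTheory Set Filter Topology
open Pool.Agent.Helper98.DISC

noncomputable section

namespace Pool.Agent.Helper79.DISC

theorem pfi : S_PFI := by
  intro n m l hm
  have hm' : |(m : ℝ)| < n := by
    rw [← Int.cast_abs]
    exact_mod_cast hm
  have hn : (0 : ℝ) < n := lt_of_le_of_lt (abs_nonneg _) hm'
  have hmn : ‖(m : ℂ)‖ < n := by
    rw [Complex.norm_intCast]
    exact hm'
  have hne : ∀ z ∈ Metric.sphere (0 : ℂ) n, z - m ≠ 0 := by
    intro z hz h
    rw [mem_sphere_zero_iff_norm] at hz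
    rw [sub_eq_zero] at h
    rw [h] at hz
    linarith
  have hE : Differentiable ℂ (fun z : ℂ => Complex.exp (2 * Real.pi * Complex.I * z)) := by
    fun_prop
  induction l with
  | zero =>
    have h1 := (hE.diffContOnCl (s := Metric.ball (0 : ℂ) n)).circleIntegral_sub_inv_smul
      (w := (m : ℂ)) (by rw [mem_ball_zero_iff]; exact hmn)
    have h2 : Complex.exp (2 * Real.pi * Complex.I * m) = 1 := by
      rw [Complex.exp_eq_one_iff]
      exact ⟨m, by ring⟩
    rw [h2] at h1
    simp only [smul_eq_mul, mul_one] at h1
    simp only [zero_add, pow_one, Nat.factorial_zero, Nat.cast_one, div_one]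
    refine Eq.trans ?_ h1
    apply circleIntegral.integral_congr hn.le
    intro z _
    simp only
    rw [div_eq_mul_inv, mul_comm]
  | succ l ih =>
    have h0 : (∮ z in C(0, n), (2 * Real.pi * Complex.I * (Complex.exp (2 * Real.pi * Complex.I * z) /
        (z - m) ^ (l + 1)) - ((l + 1 : ℕ) : ℂ) * (Complex.exp (2 * Real.pi * Complex.I * z) /
        (z - m) ^ (l + 1 + 1)))) = 0 := by
      apply circleIntegral.integral_eq_zero_of_hasDerivWithinAt'
        (f := fun z => Complex.exp (2 * Real.pi * Complex.I * z) / (z - m) ^ (l + 1))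
      intro z hz
      rw [abs_of_pos hn] at hz
      have hz' := hne z hz
      apply HasDerivAt.hasDerivWithinAt
      have d1 : HasDerivAt (fun z : ℂ => Complex.exp (2 * Real.pi * Complex.I * z))
          (Complex.exp (2 * Real.pi * Complex.I * z) * (2 * Real.pi * Complex.I)) z := by
        have := ((hasDerivAt_id z).const_mul (2 * Real.pi * Complex.I)).cexp
        simpa using this
      have d2 : HasDerivAt (fun z : ℂ => (z - m) ^ (l + 1)) (((l + 1 : ℕ) : ℂ) * (z - m) ^ l) z := by
        have := ((hasDerivAt_id z).sub_const (m : ℂ)).fun_pow (l + 1)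
        simpa using this
      refine (d1.div d2 (pow_ne_zero _ hz')).congr_deriv ?_
      field_simp
      ring
    have c1 : CircleIntegrable (fun z => 2 * Real.pi * Complex.I *
        (Complex.exp (2 * Real.pi * Complex.I * z) / (z - m) ^ (l + 1))) 0 n := by
      apply ContinuousOn.circleIntegrable hn.le
      apply continuousOn_const.mul
      apply hE.continuous.continuousOn.div
      · fun_prop
      · intro z hz
        exact pow_ne_zero _ (hne z hz)
    have c2 : CircleIntegrable (fun z => ((l + 1 : ℕ) : ℂ) *
        (Complex.exp (2 * Real.pi * Complex.I * z) / (z - m) ^ (l + 1 + 1))) 0 n := by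
      apply ContinuousOn.circleIntegrable hn.le
      apply continuousOn_const.mul
      apply hE.continuous.continuousOn.div
      · fun_prop
      · intro z hz
        exact pow_ne_zero _ (hne z hz)
    rw [circleIntegral.integral_sub c1 c2, circleIntegral.integral_const_mul,
      circleIntegral.integral_const_mul, ih] at h0
    have hl : ((l + 1 : ℕ) : ℂ) ≠ 0 := by exact_mod_cast Nat.succ_ne_zero l
    have hf : (l.factorial : ℂ) ≠ 0 := by exact_mod_cast Nat.factorial_ne_zero l
    rw [Nat.factorial_succ, Nat.cast_mul]
    rw [sub_eq_zero] at h0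
    apply mul_left_cancel₀ hl
    rw [← h0]
    field_simp
    ring

end Pool.Agent.Helper79.DISC
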