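import Pool.Agent.Helper98.DISC.GoalsA

set_option autoImplicit false

open MeasureTheory Set Filter Topology
open scoped Nat
open Pool.Agent.Helper98.DISC

noncomputable section

namespace Pool.Agent.Helper79.DISC

/-- the shifted parts -/
def el (N : ℕ) (lam : Fin N → ℕ) (i : Fin N) : ℕ := lam i + (N - 1 - i)

/-- the Vandermonde product of the shifted parts -/
def vd (N : ℕ) (lam : Fin N → ℕ) : ℂ :=
  ∏ i, ∏ j ∈ Finset.Ioi i, ((el N lam i : ℂ) - el N lam j)

def fd (N : ℕ) (lam : Fin N → ℕ) : ℂ := ∏ i, ((el N lam i).factorial : ℂ)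

def cn (z : ℂ) (N : ℕ) (lam : Fin N → ℕ) : ℂ :=
  ∏ i, ∏ j ∈ Finset.range (lam i), (z + j - i)⁻¹

open Classical in
def PP (N k : ℕ) : Finset (Fin N → ℕ) :=
  (Finset.Nat.antidiagonalTuple N k).filter Antitone

theorem mem_PP {N k : ℕ} {lam : Fin N → ℕ} :
    lam ∈ PP N k ↔ ∑ i, lam i = k ∧ Antitone lam := by
  unfold PP
  rw [Finset.mem_filter, Finset.Nat.mem_antidiagonalTuple]

def SS (z : ℂ) (N k : ℕ) : ℂ := ∑ lam ∈ PP N k, (vd N lam / fd N lam) ^ 2 * cn z N lam

theorem prod_Ioi {N : ℕ} (i : Fin N) (f : Fin N → ℂ) :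
    ∏ j ∈ Finset.Ioi i, f j = ∏ j, if i < j then f j else 1 := by
  rw [Finset.prod_ite, Finset.prod_const_one, mul_one]
  congr 1
  ext j
  simp

theorem el_snoc_castSucc (N : ℕ) (lam : Fin N → ℕ) (i : Fin N) :
    el (N + 1) (Fin.snoc lam 0 : Fin (N + 1) → ℕ) i.castSucc = el N lam i + 1 := by
  unfold el
  rw [Fin.snoc_castSucc]
  have := i.2
  simp only [Fin.val_castSucc]
  omega

theorem el_snoc_last (N : ℕ) (lam : Fin N → ℕ) :
    el (N + 1) (Fin.snoc lam 0 : Fin (N + 1) → ℕ) (Fin.last N) = 0 := by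
  unfold el
  rw [Fin.snoc_last]
  simp

theorem vd_snoc (N : ℕ) (lam : Fin N → ℕ) :
    vd (N + 1) (Fin.snoc lam 0 : Fin (N + 1) → ℕ) = vd N lam * ∏ i, ((el N lam i : ℂ) + 1) := by
  unfold vd
  simp only [prod_Ioi]
  rw [Fin.prod_univ_castSucc]
  have h1 : (∏ j : Fin (N + 1), if Fin.last N < j then
      ((el (N + 1) (Fin.snoc lam 0 : Fin (N + 1) → ℕ) (Fin.last N) : ℂ) -
        el (N + 1) (Fin.snoc lam 0 : Fin (N + 1) → ℕ) j) else 1) = 1 := by
    apply Finset.prod_eq_one
    intro j _
    rw [if_neg (not_lt.2 (Fin.le_last j))]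
  rw [h1, mul_one, ← Finset.prod_mul_distrib]
  apply Finset.prod_congr rfl
  intro i _
  rw [Fin.prod_univ_castSucc, if_pos (Fin.castSucc_lt_last i), el_snoc_castSucc, el_snoc_last]
  congr 1
  · apply Finset.prod_congr rfl
    intro j _
    rw [el_snoc_castSucc]
    by_cases hij : i < j
    · rw [if_pos hij, if_pos (by simpa using hij)]
      push_cast
      ring
    · rw [if_neg hij, if_neg (by simpa using hij)]
  · push_cast
    ring

theorem fd_snoc (N : ℕ) (lam : Fin N → ℕ) :
    fd (N + 1) (Fin.snoc lam 0 : Fin (N + 1) → ℕ) = fd N lam * ∏ i, ((el N lam i : ℂ) + 1) := by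
  unfold fd
  rw [Fin.prod_univ_castSucc, el_snoc_last, Nat.factorial_zero, Nat.cast_one, mul_one,
    ← Finset.prod_mul_distrib]
  apply Finset.prod_congr rfl
  intro i _
  rw [el_snoc_castSucc, Nat.factorial_succ]
  push_cast
  ring

theorem cn_snoc (z : ℂ) (N : ℕ) (lam : Fin N → ℕ) :
    cn z (N + 1) (Fin.snoc lam 0 : Fin (N + 1) → ℕ) = cn z N lam := by
  unfold cn
  rw [Fin.prod_univ_castSucc, Fin.snoc_last]
  simp only [Fin.snoc_castSucc, Fin.val_castSucc, Finset.range_zero, Finset.prod_empty, mul_one]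

theorem dd_snoc (N : ℕ) (lam : Fin N → ℕ) :
    vd (N + 1) (Fin.snoc lam 0 : Fin (N + 1) → ℕ) / fd (N + 1) (Fin.snoc lam 0 : Fin (N + 1) → ℕ)
      = vd N lam / fd N lam := by
  rw [vd_snoc, fd_snoc]
  apply mul_div_mul_right
  rw [Finset.prod_ne_zero_iff]
  intro i _
  exact_mod_cast Nat.succ_ne_zero (el N lam i)

theorem last_zero {N k : ℕ} (hk : k ≤ N) {lam : Fin (N + 1) → ℕ} (h : ∑ i, lam i = k)
    (ha : Antitone lam) : lam (Fin.last N) = 0 := by
  by_contra hne
  have h1 : ∀ i, 1 ≤ lam i := by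
    intro i
    have := ha (Fin.le_last i)
    omega
  have h2 : ∑ i : Fin (N + 1), 1 ≤ ∑ i, lam i := Finset.sum_le_sum (fun i _ => h1 i)
  rw [h] at h2
  simp at h2
  omega

theorem snoc_anti {N : ℕ} {lam : Fin N → ℕ} (h : Antitone lam) :
    Antitone (Fin.snoc lam 0 : Fin (N + 1) → ℕ) := by
  intro a b hab
  induction b using Fin.lastCases with
  | last => rw [Fin.snoc_last]; exact Nat.zero_le _
  | cast b =>
    induction a using Fin.lastCases with
    | last =>
      exfalso
      have := Fin.castSucc_lt_last b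
      exact absurd hab (not_le.2 this)
    | cast a =>
      rw [Fin.snoc_castSucc, Fin.snoc_castSucc]
      exact h (by simpa using hab)

theorem SS_succ (z : ℂ) {N k : ℕ} (hk : k ≤ N) : SS z (N + 1) k = SS z N k := by
  unfold SS
  symm
  apply Finset.sum_nbij' (fun lam => (Fin.snoc lam 0 : Fin (N + 1) → ℕ))
    (fun lam => (fun i : Fin N => lam i.castSucc))
  · intro lam hl
    rw [mem_PP] at hl ⊢
    refine ⟨?_, snoc_anti hl.2⟩
    rw [Fin.sum_univ_castSucc, Fin.snoc_last]
    simp only [Fin.snoc_castSucc]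
    rw [hl.1, add_zero]
  · intro lam hl
    rw [mem_PP] at hl ⊢
    refine ⟨?_, ?_⟩
    · have h1 := hl.1
      rw [Fin.sum_univ_castSucc, last_zero hk hl.1 hl.2, add_zero] at h1
      exact h1
    · intro a b hab
      exact hl.2 (by simpa using hab)
  · intro lam hl
    funext i
    rw [Fin.snoc_castSucc]
  · intro lam hl
    rw [mem_PP] at hl
    funext i
    induction i using Fin.lastCases with
    | last => rw [Fin.snoc_last, last_zero hk hl.1 hl.2]
    | cast i => rw [Fin.snoc_castSucc]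
  · intro lam hl
    rw [dd_snoc, cn_snoc]

theorem SS_stable (z : ℂ) {N k : ℕ} (hk : k ≤ N) : SS z N k = SS z k k := by
  induction N, hk using Nat.le_induction with
  | base => rfl
  | succ N hN ih => rw [SS_succ z hN, ih]

theorem SS_self (z : ℂ) (k : ℕ) : SS z k k = sk k z := by
  unfold SS sk
  symm
  apply Finset.sum_bij (fun (lam : Fin k → Fin (k + 1)) _ => (fun i => (lam i : ℕ)))
  · intro lam hl
    unfold prt at hl
    rw [Finset.mem_filter] at hl
    rw [mem_PP]
    refine ⟨hl.2.2, ?_⟩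
    intro a b hab
    exact hl.2.1 hab
  · intro a _ b _ hab
    funext i
    exact Fin.ext (congrFun hab i)
  · intro lam hl
    rw [mem_PP] at hl
    have hle : ∀ i, lam i < k + 1 := by
      intro i
      have h1 : lam i ≤ ∑ j, lam j := Finset.single_le_sum (f := lam) (fun j _ => Nat.zero_le _)
        (Finset.mem_univ i)
      omega
    refine ⟨fun i => ⟨lam i, hle i⟩, ?_, rfl⟩
    unfold prt
    rw [Finset.mem_filter]
    refine ⟨Finset.mem_univ _, ?_, hl.1⟩
    intro a b hab
    exact hl.2 hab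
  · intro lam hl
    rfl

theorem sum_rev (N : ℕ) : ∑ i : Fin N, (N - 1 - (i : ℕ)) = N * (N - 1) / 2 := by
  rw [Fin.sum_univ_eq_sum_range (fun i => N - 1 - i), Finset.sum_range_reflect (fun i => i) N,
    Finset.sum_range_id]

theorem sa_step {N : ℕ} {l : Fin N → ℕ} (h : StrictAnti l) :
    ∀ d : ℕ, ∀ i j : Fin N, (i : ℕ) + d = j → l j + d ≤ l i := by
  intro d
  induction d with
  | zero =>
    intro i j hij
    have : i = j := Fin.ext (by omega)
    rw [this]
    omega
  | succ d ih =>
    intro i j hij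
    have hj := j.2
    have h1 := ih i ⟨(i : ℕ) + d, by omega⟩ rfl
    have h2 : l j < l ⟨(i : ℕ) + d, by omega⟩ := h (by rw [Fin.lt_def]; simp; omega)
    omega

theorem sa_lower {N : ℕ} {l : Fin N → ℕ} (h : StrictAnti l) (i : Fin N) :
    N - 1 - (i : ℕ) ≤ l i := by
  have hi := i.2
  have := sa_step h (N - 1 - i) i ⟨N - 1, by omega⟩ (by simp; omega)
  omega

theorem term_eq (z : ℂ) (N : ℕ) (lam : Fin N → ℕ) :
    (∏ i, wl (z - N + 1) (el N lam i)) * vd N lam ^ 2 =
      (∏ i ∈ Finset.range N, ∏ j ∈ Finset.range i, (z - N + 1 + j))⁻¹ *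
        ((vd N lam / fd N lam) ^ 2 * cn z N lam) := by
  have h1 : (∏ i, wl (z - N + 1) (el N lam i)) = (fd N lam ^ 2)⁻¹ *
      (∏ i : Fin N, ∏ j ∈ Finset.range (el N lam i), (z - N + 1 + j))⁻¹ := by
    unfold wl fd
    rw [← Finset.prod_pow, ← Finset.prod_inv_distrib, ← Finset.prod_inv_distrib,
      ← Finset.prod_mul_distrib]
    apply Finset.prod_congr rfl
    intro i _
    rw [mul_inv]
  have h2 : ∀ i : Fin N, ∏ j ∈ Finset.range (el N lam i), (z - N + 1 + j) =
      (∏ j ∈ Finset.range (N - 1 - (i : ℕ)), (z - N + 1 + j)) *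
        ∏ j ∈ Finset.range (lam i), (z + j - i) := by
    intro i
    unfold el
    rw [add_comm (lam i), Finset.prod_range_add]
    congr 1
    apply Finset.prod_congr rfl
    intro j _
    have hi := i.2
    have h3 : (((N - 1 - (i : ℕ) + j : ℕ)) : ℂ) = (N : ℂ) - 1 - (i : ℕ) + j := by
      rw [Nat.cast_add, Nat.cast_sub (by omega), Nat.cast_sub (by omega)]
      simp
    rw [h3]
    ring
  have h4 : (∏ i : Fin N, ∏ j ∈ Finset.range (el N lam i), (z - N + 1 + j)) =
      (∏ i ∈ Finset.range N, ∏ j ∈ Finset.range i, (z - N + 1 + j)) *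
        ∏ i : Fin N, ∏ j ∈ Finset.range (lam i), (z + j - i) := by
    rw [Finset.prod_congr rfl (fun i _ => h2 i), Finset.prod_mul_distrib]
    congr 1
    rw [Fin.prod_univ_eq_prod_range (fun i => ∏ j ∈ Finset.range (N - 1 - i), (z - N + 1 + j)) N]
    exact Finset.prod_range_reflect (fun i => ∏ j ∈ Finset.range i, (z - N + 1 + j)) N
  have h5 : cn z N lam = (∏ i : Fin N, ∏ j ∈ Finset.range (lam i), (z + j - i))⁻¹ := by
    unfold cn
    rw [← Finset.prod_inv_distrib]
    apply Finset.prod_congr rfl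
    intro i _
    rw [Finset.prod_inv_distrib]
  rw [h1, h4, h5, mul_inv]
  ring

theorem pn (hLC : S_LC) : S_PN := by
  intro z _ N
  constructor
  · intro m hm
    rw [hLC]
    apply Finset.sum_eq_zero
    intro l hl
    exfalso
    rw [Finset.mem_filter] at hl
    obtain ⟨_, hsa, hsum⟩ := hl
    have hsa' : StrictAnti (fun i => (l i : ℕ)) := fun a b hab => hsa hab
    have h1 : ∑ i : Fin N, (N - 1 - (i : ℕ)) ≤ ∑ i, (l i : ℕ) :=
      Finset.sum_le_sum (fun i _ => sa_lower hsa' i)
    rw [sum_rev, hsum] at h1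
    omega
  · intro k hk
    rw [hLC, ← SS_self, ← SS_stable z hk]
    unfold SS
    rw [Finset.mul_sum]
    symm
    have hlt : ∀ lam ∈ PP N k, ∀ i, el N lam i < k + N * (N - 1) / 2 + 1 := by
      intro lam hl i
      rw [mem_PP] at hl
      have h1 : el N lam i ≤ ∑ j, el N lam j := Finset.single_le_sum (f := el N lam)
        (fun j _ => Nat.zero_le _) (Finset.mem_univ i)
      have h2 : ∑ j, el N lam j = k + N * (N - 1) / 2 := by
        unfold el
        rw [Finset.sum_add_distrib, sum_rev, hl.1]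
      omega
    apply Finset.sum_bij (fun lam hl => (fun i => ⟨el N lam i, hlt lam hl i⟩))
    · intro lam hl
      have hl' := hl
      rw [mem_PP] at hl'
      rw [Finset.mem_filter]
      refine ⟨Finset.mem_univ _, ?_, ?_⟩
      · intro a b hab
        rw [Fin.lt_def]
        have h1 := hl'.2 hab.le
        have h2 := b.2
        have h3 : (a : ℕ) < b := hab
        simp only [el]
        omega
      · simp only [el]
        rw [Finset.sum_add_distrib, sum_rev, hl'.1]
    · intro a ha b hb hab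
      funext i
      have h1 := congrFun hab i
      rw [Fin.ext_iff] at h1
      simp only [el] at h1
      omega
    · intro l hl
      rw [Finset.mem_filter] at hl
      obtain ⟨_, hsa, hsum⟩ := hl
      have hsa' : StrictAnti (fun i => (l i : ℕ)) := fun a b hab => hsa hab
      have hlow := fun i => sa_lower hsa' i
      have hm : (fun i => (l i : ℕ) - (N - 1 - (i : ℕ))) ∈ PP N k := by
        rw [mem_PP]
        constructor
        · have h1 : ∑ i : Fin N, ((l i : ℕ) - (N - 1 - (i : ℕ))) + ∑ i : Fin N, (N - 1 - (i : ℕ))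
              = ∑ i, (l i : ℕ) := by
            rw [← Finset.sum_add_distrib]
            apply Finset.sum_congr rfl
            intro i _
            have h9 : N - 1 - (i : ℕ) ≤ (l i : ℕ) := hlow i
            omega
          rw [sum_rev, hsum] at h1
          omega
        · intro a b hab
          have h1 := sa_step hsa' ((b : ℕ) - a) a b (by
            have : (a : ℕ) ≤ b := hab
            omega)
          have h2 : (a : ℕ) ≤ b := hab
          have h3 := b.2
          have h4 : (l b : ℕ) + ((b : ℕ) - a) ≤ (l a : ℕ) := h1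
          show (l b : ℕ) - (N - 1 - (b : ℕ)) ≤ (l a : ℕ) - (N - 1 - (a : ℕ))
          omega
      refine ⟨_, hm, ?_⟩
      funext i
      rw [Fin.ext_iff]
      have h9 : N - 1 - (i : ℕ) ≤ (l i : ℕ) := hlow i
      show (l i : ℕ) - (N - 1 - (i : ℕ)) + (N - 1 - (i : ℕ)) = (l i : ℕ)
      omega
    · intro lam hl
      exact (term_eq z N lam).symm

end Pool.Agent.Helper79.DISC
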