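import Pool.Agent.Helper98.DISC.GoalsD

set_option autoImplicit false

open MeasureTheory Set Filter Topology
open scoped ENNReal
open Pool.Agent.Helper98.DISC

noncomputable section

namespace Pool.Agent.Helper79.DISC

theorem vol_disc : (volume : Measure ℂ) (Metric.closedBall 0 1) = ENNReal.ofReal Real.pi := by
  rw [Complex.volume_closedBall]
  simp [ENNReal.ofReal, Real.toNNReal_of_nonneg Real.pi_pos.le]
  rfl

/-- the product measure in `qn` -/
theorem pi_cond (n : ℕ) : (Measure.pi fun _ : Fin n => ProbabilityTheory.cond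
    (volume : Measure ℂ) (Metric.closedBall 0 1)) =
    (ENNReal.ofReal Real.pi)⁻¹ ^ n • (volume : Measure (Fin n → ℂ)).restrict
      (Set.univ.pi fun _ => Metric.closedBall (0 : ℂ) 1) := by
  have hpi : ENNReal.ofReal Real.pi ≠ 0 := by
    rw [ne_eq, ENNReal.ofReal_eq_zero, not_le]
    exact Real.pi_pos
  have : ∀ _ : Fin n, SigmaFinite (ProbabilityTheory.cond
    (volume : Measure ℂ) (Metric.closedBall 0 1)) := by
    intro _
    have h1 : IsProbabilityMeasure (ProbabilityTheory.cond
        (volume : Measure ℂ) (Metric.closedBall 0 1)) := by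
      apply ProbabilityTheory.cond_isProbabilityMeasure_of_finite
      · rw [vol_disc]
        exact hpi
      · rw [vol_disc]
        exact ENNReal.ofReal_ne_top
    infer_instance
  apply Measure.pi_eq
  intro s hs
  rw [volume_pi, Measure.restrict_pi_pi, Measure.smul_apply, Measure.pi_pi]
  unfold ProbabilityTheory.cond
  rw [vol_disc]
  simp only [Measure.smul_apply, smul_eq_mul]
  rw [Finset.prod_mul_distrib, Finset.prod_const, Finset.card_univ, Fintype.card_fin]

theorem null_norm (hN : S_NUL) {n : ℕ} (i : Fin n) :
    volume {x : Fin n → ℂ | ‖x i‖ = 1} = 0 := by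
  apply hN (Fin n) i
  · exact (isClosed_eq ((continuous_apply i).norm) continuous_const).measurableSet
  · intro z
    have h1 : {t : ℂ | Function.update z i t ∈ {x : Fin n → ℂ | ‖x i‖ = 1}} =
        Metric.sphere (0 : ℂ) 1 := by
      ext t
      simp
    rw [h1]
    exact Measure.addHaar_sphere _ _ _

theorem null_eq (hN : S_NUL) {n : ℕ} {i j : Fin n} (hij : i ≠ j) :
    volume {x : Fin n → ℂ | x i = x j} = 0 := by
  apply hN (Fin n) j
  · exact (isClosed_eq (continuous_apply i) (continuous_apply j)).measurableSet
  · intro z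
    have h1 : {t : ℂ | Function.update z j t ∈ {x : Fin n → ℂ | x i = x j}} = {z i} := by
      ext t
      simp only [mem_ofPred_eq, mem_singleton_iff, Function.update_self,
        Function.update_of_ne hij]
      exact eq_comm
    rw [h1]
    exact measure_singleton _

theorem null_line (a b : ℂ) (hab : a ≠ b) : volume {t : ℂ | cr a b t = 0} = 0 := by
  let l : ℂ →ₗ[ℝ] ℝ := (b.re - a.re) • Complex.imLm - (b.im - a.im) • Complex.reLm
  have hl : ∀ v, l v = (b.re - a.re) * v.im - (b.im - a.im) * v.re := by
    intro v
    simp [l]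
  have h0 : volume ((LinearMap.ker l : Submodule ℝ ℂ) : Set ℂ) = 0 := by
    apply Measure.addHaar_submodule
    intro htop
    have h1 : ((⟨-(b.im - a.im), b.re - a.re⟩ : ℂ)) ∈ LinearMap.ker l := by
      rw [htop]
      trivial
    rw [LinearMap.mem_ker, hl] at h1
    simp only at h1
    apply hab
    have h2 : (b.re - a.re) ^ 2 + (b.im - a.im) ^ 2 = 0 := by
      rw [← h1]
      ring
    have h3 : b.re - a.re = 0 := by nlinarith [sq_nonneg (b.re - a.re), sq_nonneg (b.im - a.im)]
    have h4 : b.im - a.im = 0 := by nlinarith [sq_nonneg (b.re - a.re), sq_nonneg (b.im - a.im)]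
    apply Complex.ext
    · linarith
    · linarith
  have h1 : {t : ℂ | cr a b t = 0} = (fun t => t + (-a)) ⁻¹'
      ((LinearMap.ker l : Submodule ℝ ℂ) : Set ℂ) := by
    ext t
    simp only [mem_ofPred_eq, mem_preimage, SetLike.mem_coe, LinearMap.mem_ker, hl]
    unfold cr
    simp only [Complex.add_re, Complex.add_im, Complex.neg_re, Complex.neg_im]
    constructor
    · intro h
      linarith
    · intro h
      linarith
  rw [h1, measure_preimage_add_right, h0]

theorem cont_cr {n : ℕ} (i j k : Fin n) : Continuous (fun x : Fin n → ℂ => cr (x i) (x j) (x k)) := by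
  unfold cr
  have hre : ∀ i : Fin n, Continuous (fun x : Fin n → ℂ => (x i).re) :=
    fun i => Complex.continuous_re.comp (continuous_apply i)
  have him : ∀ i : Fin n, Continuous (fun x : Fin n → ℂ => (x i).im) :=
    fun i => Complex.continuous_im.comp (continuous_apply i)
  exact (((hre j).sub (hre i)).mul ((him k).sub (him i))).sub
    (((him j).sub (him i)).mul ((hre k).sub (hre i)))

theorem null_cr (hN : S_NUL) {n : ℕ} {i j k : Fin n} (hij : i < j) (hjk : j < k) :
    volume {x : Fin n → ℂ | cr (x i) (x j) (x k) = 0} = 0 := by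
  have h1 : {x : Fin n → ℂ | cr (x i) (x j) (x k) = 0} ⊆
      {x : Fin n → ℂ | x i = x j} ∪ {x : Fin n → ℂ | x i ≠ x j ∧ cr (x i) (x j) (x k) = 0} := by
    intro x hx
    by_cases h : x i = x j
    · exact Or.inl h
    · exact Or.inr ⟨h, hx⟩
  apply measure_mono_null h1
  rw [measure_union_null_iff]
  refine ⟨null_eq hN hij.ne, ?_⟩
  apply hN (Fin n) k
  · have h2 : MeasurableSet {x : Fin n → ℂ | x i = x j} :=
      (isClosed_eq (continuous_apply i) (continuous_apply j)).measurableSet
    have h3 : MeasurableSet {x : Fin n → ℂ | cr (x i) (x j) (x k) = 0} :=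
      (isClosed_eq (cont_cr i j k) continuous_const).measurableSet
    exact h2.compl.inter h3
  · intro z
    by_cases h : z i = z j
    · have h2 : {t : ℂ | Function.update z k t ∈ {x : Fin n → ℂ | x i ≠ x j ∧
          cr (x i) (x j) (x k) = 0}} = ∅ := by
        ext t
        simp only [mem_ofPred_eq, Function.update_self, Function.update_of_ne hjk.ne,
          Function.update_of_ne (hij.trans hjk).ne, mem_empty_iff_false, iff_false]
        intro hh
        exact hh.1 h
      rw [h2, measure_empty]
    · have h2 : {t : ℂ | Function.update z k t ∈ {x : Fin n → ℂ | x i ≠ x j ∧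
          cr (x i) (x j) (x k) = 0}} ⊆ {t : ℂ | cr (z i) (z j) t = 0} := by
        intro t ht
        simp only [mem_ofPred_eq, Function.update_self, Function.update_of_ne hjk.ne,
          Function.update_of_ne (hij.trans hjk).ne] at ht
        exact ht.2
      exact measure_mono_null h2 (null_line _ _ h)

theorem meas_CS (n : ℕ) : MeasurableSet (CS n) := by
  have h1 : CS n = (⋂ i, ⋂ j, ⋂ k, {z : Fin n → ℂ | i < j → j < k → 0 < cr (z i) (z j) (z k)}) ∩
      ⋂ i, {z : Fin n → ℂ | ‖z i‖ < 1} := by
    ext z
    simp only [CS, Pos3, mem_ofPred_eq, mem_inter_iff, mem_iInter]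
  rw [h1]
  apply MeasurableSet.inter
  · apply MeasurableSet.iInter
    intro i
    apply MeasurableSet.iInter
    intro j
    apply MeasurableSet.iInter
    intro k
    by_cases h : i < j ∧ j < k
    · have h2 : {z : Fin n → ℂ | i < j → j < k → 0 < cr (z i) (z j) (z k)} =
          {z : Fin n → ℂ | 0 < cr (z i) (z j) (z k)} := by
        ext z
        simp only [mem_ofPred_eq]
        exact ⟨fun h' => h' h.1 h.2, fun h' _ _ => h'⟩
      rw [h2]
      exact (isOpen_lt continuous_const (cont_cr i j k)).measurableSet
    · have h2 : {z : Fin n → ℂ | i < j → j < k → 0 < cr (z i) (z j) (z k)} = Set.univ := by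
        ext z
        simp only [mem_ofPred_eq, mem_univ, iff_true]
        intro h3 h4
        exact absurd ⟨h3, h4⟩ h
      rw [h2]
      exact MeasurableSet.univ
  · apply MeasurableSet.iInter
    intro i
    exact (isOpen_lt ((continuous_apply i).norm) continuous_const).measurableSet

/-- conjugation of all coordinates -/
def cj (n : ℕ) (x : Fin n → ℂ) : Fin n → ℂ := fun i => (starRingEnd ℂ) (x i)

theorem cj_mp (n : ℕ) : MeasurePreserving (cj n) := by
  have h1 : MeasurePreserving (starRingEnd ℂ : ℂ → ℂ) :=
    Complex.conjLIE.measurePreserving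
  exact volume_preserving_pi (fun _ => h1)

theorem qn_eq (hA : S_PGA) (hB : S_PGB) (hC : S_CNJ) (hN : S_NUL) : S_QN := by
  intro n _ hn
  have h1 : volume ({x : Fin n → ℂ | IsConvexPolygon x} ∩
      (Set.univ.pi fun _ => Metric.closedBall (0 : ℂ) 1)) = 2 * volume (CS n) := by
    have hae : ({x : Fin n → ℂ | IsConvexPolygon x} ∩
        (Set.univ.pi fun _ => Metric.closedBall (0 : ℂ) 1) : Set (Fin n → ℂ)) =ᵐ[volume]
        (CS n ∪ cj n ⁻¹' CS n : Set (Fin n → ℂ)) := by
      have n1 : ∀ᵐ x : Fin n → ℂ, ∀ i, ‖x i‖ ≠ 1 := by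
        rw [ae_all_iff]
        intro i
        rw [ae_iff]
        simpa using null_norm hN i
      have n2 : ∀ᵐ x : Fin n → ℂ, ∀ i j k, i < j → j < k → cr (x i) (x j) (x k) ≠ 0 := by
        rw [ae_all_iff]
        intro i
        rw [ae_all_iff]
        intro j
        rw [ae_all_iff]
        intro k
        by_cases h : i < j ∧ j < k
        · have h3 := null_cr hN h.1 h.2
          rw [ae_iff]
          apply measure_mono_null _ h3
          intro x hx
          simp only [mem_ofPred_eq] at hx ⊢
          by_contra hh
          exact hx (fun _ _ => hh)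
        · exact Filter.Eventually.of_forall (fun x h3 h4 => absurd ⟨h3, h4⟩ h)
      filter_upwards [n1, n2] with x hx1 hx2
      apply propext
      constructor
      · rintro ⟨h3, h4⟩
        have h5 : ∀ i, ‖x i‖ < 1 := by
          intro i
          have h6 := h4 i (mem_univ _)
          rw [mem_closedBall_zero_iff] at h6
          exact lt_of_le_of_ne h6 (hx1 i)
        rcases hB n x hn hx2 h3 with h6 | h6
        · exact Or.inl ⟨h6, h5⟩
        · refine Or.inr ⟨?_, ?_⟩
          · intro i j k hij hjk
            simp only [cj]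
            rw [hC.2]
            have := h6 i j k hij hjk
            linarith
          · intro i
            simp only [cj, RCLike.norm_conj]
            exact h5 i
      · intro h3
        have h5 : IsConvexPolygon x ∧ ∀ i, ‖x i‖ < 1 := by
          rcases h3 with h3 | h3
          · exact ⟨hA n x hn h3.1, h3.2⟩
          · refine ⟨?_, ?_⟩
            · have h6 := hA n (cj n x) hn h3.1
              exact (hC.1 n x).1 h6
            · intro i
              have h7 := h3.2 i
              simpa only [cj, RCLike.norm_conj] using h7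
        refine ⟨h5.1, ?_⟩
        intro i _
        rw [mem_closedBall_zero_iff]
        exact (h5.2 i).le
    rw [measure_congr hae, measure_union]
    · rw [(cj_mp n).measure_preimage (meas_CS n).nullMeasurableSet, two_mul]
    · rw [Set.disjoint_left]
      intro x hx hx'
      have h3 := hx.1 ⟨0, by omega⟩ ⟨1, by omega⟩ ⟨2, by omega⟩
        (Fin.mk_lt_mk.2 (by norm_num)) (Fin.mk_lt_mk.2 (by norm_num))
      have h4 := hx'.1 ⟨0, by omega⟩ ⟨1, by omega⟩ ⟨2, by omega⟩
        (Fin.mk_lt_mk.2 (by norm_num)) (Fin.mk_lt_mk.2 (by norm_num))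
      simp only [cj] at h4
      rw [hC.2] at h4
      linarith
    · exact (cj_mp n).measurable (meas_CS n)
  unfold qn
  rw [pi_cond, Measure.smul_apply, smul_eq_mul, Measure.restrict_apply', h1]
  · rw [ENNReal.toReal_mul, ENNReal.toReal_pow, ENNReal.toReal_inv,
      ENNReal.toReal_ofReal Real.pi_pos.le, ENNReal.toReal_mul]
    simp only [ENNReal.toReal_ofNat]
    rw [inv_pow]
    ring
  · apply MeasurableSet.univ_pi
    intro i
    exact Metric.isClosed_closedBall.measurableSet

end Pool.Agent.Helper79.DISC
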