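import Pool.Agent.Helper98.DISC.GoalsD

set_option autoImplicit false

open MeasureTheory Set Filter Topology
open scoped ENNReal
open Pool.Agent.Helper98.DISC

noncomputable section

namespace Pool.Agent.Helper79.DISC

theorem cr_cont {X : Type*} [TopologicalSpace X] {f g h : X → ℂ} (hf : Continuous f)
    (hg : Continuous g) (hh : Continuous h) : Continuous (fun x => cr (f x) (g x) (h x)) := by
  unfold cr
  have r1 := Complex.continuous_re.comp hf
  have r2 := Complex.continuous_re.comp hg
  have r3 := Complex.continuous_re.comp hh
  have i1 := Complex.continuous_im.comp hf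
  have i2 := Complex.continuous_im.comp hg
  have i3 := Complex.continuous_im.comp hh
  exact ((r2.sub r1).mul (i3.sub i1)).sub ((i2.sub i1).mul (r3.sub r1))

theorem dlt_cont {X : Type*} [TopologicalSpace X] (a b : ℂ) {w z : X → ℂ} (hw : Continuous w)
    (hz : Continuous z) : Continuous (fun x => dlt a b (w x) (z x)) := by
  unfold dlt
  apply Complex.continuous_im.comp
  apply Continuous.mul
  · exact (hz.sub continuous_const).mul (continuous_const.sub hw)
  · apply Complex.continuous_conj.comp
    exact (continuous_const.sub hz).mul (hw.sub continuous_const)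

theorem dq_cont {X : Type*} [TopologicalSpace X] (a b : ℂ) (φ : ℝ) {z : X → ℂ}
    (hz : Continuous z) : Continuous (fun x => dq a b φ (z x)) := by
  unfold dq
  apply Complex.continuous_im.comp
  apply Continuous.mul _ continuous_const
  apply Continuous.mul
  · exact hz.sub continuous_const
  · apply Complex.continuous_conj.comp
    exact continuous_const.sub hz

theorem meas_pos {X : Type*} [TopologicalSpace X] [MeasurableSpace X] [OpensMeasurableSpace X]
    {f : X → ℝ} (hf : Continuous f) : Measurable (fun x => 0 < f x) :=
  measurableSet_setOfPred.1 (isOpen_lt continuous_const hf).measurableSet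

theorem meas_neg {X : Type*} [TopologicalSpace X] [MeasurableSpace X] [OpensMeasurableSpace X]
    {f : X → ℝ} (hf : Continuous f) : Measurable (fun x => f x < 0) :=
  measurableSet_setOfPred.1 (isOpen_lt hf continuous_const).measurableSet

/-- the set of chains with moving end points is measurable -/
theorem meas_chain {κ : Type} [Fintype κ] [LinearOrder κ] {X : Type*} [TopologicalSpace X]
    [MeasurableSpace X] [OpensMeasurableSpace X] {f g : X → ℂ} {u : X → κ → ℂ}
    (hf : Continuous f) (hg : Continuous g) (hu : Continuous u) :
    Measurable (fun x => Chain (f x) (g x) (u x)) := by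
  have hui : ∀ i, Continuous (fun x => u x i) := fun i => (continuous_apply i).comp hu
  have h1 : (fun x => Chain (f x) (g x) (u x)) = (fun x =>
      ((∀ i, 0 < cr (f x) (u x i) (g x)) ∧ (∀ i j, i < j → 0 < cr (f x) (u x i) (u x j))) ∧
      ((∀ i j, i < j → 0 < cr (u x i) (u x j) (g x)) ∧
        ∀ i j k, i < j → j < k → 0 < cr (u x i) (u x j) (u x k))) := by
    funext x
    apply propext
    constructor
    · intro h
      exact ⟨⟨h.ab, h.a2⟩, h.b2, h.p3⟩
    · intro h
      exact ⟨h.1.1, h.1.2, h.2.1, h.2.2⟩
  rw [h1]
  apply Measurable.and
  · apply Measurable.and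
    · exact Measurable.forall (fun i => meas_pos (cr_cont hf (hui i) hg))
    · exact Measurable.forall (fun i => Measurable.forall (fun j =>
        measurable_const.imp (meas_pos (cr_cont hf (hui i) (hui j)))))
  · apply Measurable.and
    · exact Measurable.forall (fun i => Measurable.forall (fun j =>
        measurable_const.imp (meas_pos (cr_cont (hui i) (hui j) hg))))
    · exact Measurable.forall (fun i => Measurable.forall (fun j => Measurable.forall (fun k =>
        measurable_const.imp (measurable_const.imp
          (meas_pos (cr_cont (hui i) (hui j) (hui k)))))))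

theorem sp1 (hD : S_DC1) (hF : S_FUB) : S_SP1 := by
  intro ι _ _ a b φ j hφ hab
  have h1 : {z : ι → ℂ | z ∈ ES ι a b φ ∧ ∀ i, i ≠ j → dlt a b (z j) (z i) < 0} =
      {z : ι → ℂ | z j ∈ {w : ℂ | 0 < cr a w b ∧ dq a b φ w < 0} ∧
        (z j, fun i : {i // i < j} => z i) ∈
          {p : ℂ × ({i // i < j} → ℂ) | p.2 ∈ EL {i // i < j} a b p.1} ∧
        (z j, fun i : {i // j < i} => z i) ∈
          {p : ℂ × ({i // j < i} → ℂ) | p.2 ∈ ER {i // j < i} a b p.1}} := by
    ext z
    exact hD.1 ι a b φ hφ hab j z
  rw [h1, hF ι j]
  · apply setLIntegral_congr_fun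
    · exact measurableSet_setOfPred.2 ((meas_pos (cr_cont continuous_const continuous_id
        continuous_const)).and (meas_neg (dq_cont a b φ continuous_id)))
    · intro w hw
      simp only
      have h2 := (hD.2 {i // i < j} a b w hw.1).1
      have h3 := (hD.2 {i // j < i} a b w hw.1).2
      rw [← h2, ← h3]
      rfl
  · exact measurableSet_setOfPred.2 ((meas_pos (cr_cont continuous_const continuous_id
      continuous_const)).and (meas_neg (dq_cont a b φ continuous_id)))
  · apply measurableSet_setOfPred.2
    unfold EL
    exact (meas_chain continuous_const continuous_fst continuous_snd).and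
      (Measurable.forall (fun i => meas_neg (dlt_cont a b continuous_fst
        ((continuous_apply i).comp continuous_snd))))
  · apply measurableSet_setOfPred.2
    unfold ER
    exact (meas_chain continuous_fst continuous_const continuous_snd).and
      (Measurable.forall (fun i => meas_neg (dlt_cont a b continuous_fst
        ((continuous_apply i).comp continuous_snd))))

end Pool.Agent.Helper79.DISC
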